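import Pool.Agent.Helper892.ST.Param

/-!
The choice of the parameters.
-/

set_option autoImplicit false

open Filter Real

namespace Pool.Agent.Helper892.SW

open Pool.Agent.Helper892.ST

theorem params (ρ β : ℝ) (hρ0 : 0 < ρ) (hβ0 : 0 < β)
    (hβ : β < ρ / (1 + ρ)) (C T0 : ℝ) : ∃ Y A m : ℕ,
    2 ^ m < (A + 1) ^ (TT Y).card ∧ T0 ≤ m * log 2 ∧
    ∀ h : ℝ, 0 ≤ h → h ≤ A * log ((∏ p ∈ TT Y, p : ℕ) : ℝ) →
      log ((∏ p ∈ TT Y, p : ℕ) : ℝ) + C + h ^ β ≤ ρ * (m * log 2) := by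
  -- the exponent
  obtain ⟨κ, hκ1, hκ2⟩ : ∃ κ : ℝ, 1 / ρ < κ ∧ κ < 1 / β - 1 := by
    apply exists_between
    rw [lt_sub_iff_add_lt, lt_div_iff₀ hβ0]
    have e1 : (1 / ρ + 1) * β < (1 / ρ + 1) * (ρ / (1 + ρ)) :=
      mul_lt_mul_of_pos_left hβ (by positivity)
    have e2 : (1 / ρ + 1) * (ρ / (1 + ρ)) = 1 := by
      field_simp
    linarith
  have hκ0 : 0 < κ := lt_trans (by positivity) hκ1
  have hγ : (κ + 1) * β < 1 := by
    have := (lt_sub_iff_add_lt.1 hκ2)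
    rwa [lt_div_iff₀ hβ0] at this
  set δ : ℝ := ρ * κ - 1 with hδ
  have hδ0 : 0 < δ := by
    rw [hδ]
    rw [div_lt_iff₀ hρ0] at hκ1
    linarith
  have hl2 : 0 < log 2 := log_pos (by norm_num)
  have hl4 : 0 ≤ log 4 := log_nonneg (by norm_num)
  set M0 : ℝ := log 4 with hM0
  -- the condition on Y
  have ev1 := eventually_le (2 * δ + 1) (M0 ^ β) (δ * log 2 + ρ * (2 * log 2) + C)
    (δ * log 2) ((κ + 1) * β) (by positivity) hγ
  have ev2 := eventually_le (2 * κ) 0 (κ * log 2 + 2 * log 2 + T0) (κ * log 2) 0 (by positivity)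
    (by norm_num)
  have ev3 := eventually_le 2 0 (2 * log 2) (log 2) 0 hl2 (by norm_num)
  have ev := (tendsto_natCast_atTop_atTop (R := ℝ)).eventually (ev1.and (ev2.and ev3))
  obtain ⟨Y, ⟨hY1, hY2, hY3⟩, hY4⟩ := (ev.and (eventually_ge_atTop 3)).exists
  have hYr : (3 : ℝ) ≤ Y := by exact_mod_cast hY4
  have hlY : 0 < log Y := log_pos (by linarith)
  set A : ℕ := ⌊(Y : ℝ) ^ κ⌋₊ with hA
  have hYκ : (1 : ℝ) ≤ (Y : ℝ) ^ κ := one_le_rpow (by linarith) hκ0.le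
  have hA1 : (Y : ℝ) ^ κ < A + 1 := Nat.lt_floor_add_one _
  have hA2 : (A : ℝ) ≤ (Y : ℝ) ^ κ := Nat.floor_le (by linarith)
  set s : ℕ := (TT Y).card with hs
  have hs1 : (s : ℝ) = Nat.primeCounting Y - 1 := card_TT (by omega)
  have hs2 : Y * log 2 - 2 * log Y - log 2 ≤ s * log Y := by
    have h1 := Chebyshev.pi_ge Y
    rw [div_le_iff₀ hlY] at h1
    have h2 : log ((Y : ℝ) + 1) ≤ log Y + log 2 := by
      rw [← log_mul (by linarith) (by norm_num)]
      exact log_le_log (by linarith) (by linarith)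
    rw [hs1, sub_mul, one_mul]
    linarith
  have hθ : log ((∏ p ∈ TT Y, p : ℕ) : ℝ) ≤ Chebyshev.theta Y := log_prod_TT (by omega)
  have hθ1 : Chebyshev.theta Y ≤ (s + 1) * log Y := by
    have := Chebyshev.theta_le_pi_mul_log Y
    rw [hs1]
    simpa using this
  have hθ2 : Chebyshev.theta Y ≤ log 4 * Y := Chebyshev.theta_le_log4_mul_x (by linarith)
  set X : ℕ := (A + 1) ^ s with hX
  have hlogX : s * (κ * log Y) ≤ log X := by
    rw [hX]
    push_cast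
    rw [log_pow]
    refine mul_le_mul_of_nonneg_left ?_ (Nat.cast_nonneg _)
    rw [← log_rpow (by linarith)]
    exact log_le_log (by positivity) hA1.le
  have hX0 : 0 < X := by positivity
  have hX2 : 2 ≤ X := by
    by_contra hcon
    have h1 : X = 1 := by omega
    rw [h1, Nat.cast_one, log_one] at hlogX
    have h3 : 2 * log Y + 0 * (Y : ℝ) ^ (0 : ℝ) + 2 * log 2 ≤ log 2 * Y := hY3
    have h4 : 0 < s * log Y := by linarith
    nlinarith
  have hlog2 : 1 ≤ Nat.log 2 X := Nat.log_pos (by norm_num) hX2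
  set m : ℕ := Nat.log 2 X - 1 with hm
  have hm1 : m + 1 = Nat.log 2 X := by omega
  have hm2 : 2 ^ m < X := by
    have h1 : 2 ^ (m + 1) ≤ X := by
      rw [hm1]
      exact Nat.pow_log_le_self 2 hX0.ne'
    calc 2 ^ m < 2 ^ (m + 1) := Nat.pow_lt_pow_right (by norm_num) (Nat.lt_succ_self m)
      _ ≤ X := h1
  have hm3 : log X ≤ (m + 2) * log 2 := by
    have h1 : X < 2 ^ (m + 2) := by
      have := Nat.lt_pow_succ_log_self (b := 2) (by norm_num) X
      rwa [← hm1] at this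
    have h2 : (X : ℝ) ≤ 2 ^ (m + 2) := by exact_mod_cast h1.le
    have h3 := log_le_log (by exact_mod_cast hX0) h2
    rw [log_pow] at h3
    push_cast at h3
    exact h3
  have hm4 : s * (κ * log Y) - 2 * log 2 ≤ m * log 2 := by linarith
  refine ⟨Y, A, m, hm2, ?_, ?_⟩
  · have h1 : κ * (Y * log 2 - 2 * log Y - log 2) ≤ κ * (s * log Y) :=
      mul_le_mul_of_nonneg_left hs2 hκ0.le
    have h2 : 2 * κ * log Y + 0 * (Y : ℝ) ^ (0 : ℝ) + (κ * log 2 + 2 * log 2 + T0) ≤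
      κ * log 2 * Y := hY2
    nlinarith
  · intro h hh0 hhA
    have hl : 0 ≤ log ((∏ p ∈ TT Y, p : ℕ) : ℝ) := by
      apply log_natCast_nonneg
    have g1 : h ≤ log 4 * (Y : ℝ) ^ (κ + 1) := by
      calc h ≤ A * log ((∏ p ∈ TT Y, p : ℕ) : ℝ) := hhA
        _ ≤ (Y : ℝ) ^ κ * (log 4 * Y) := by
            refine mul_le_mul hA2 (hθ.trans hθ2) hl (by positivity)
        _ = log 4 * (Y : ℝ) ^ (κ + 1) := by
            rw [rpow_add_one (by linarith)]
            ring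
    have g2 : h ^ β ≤ M0 ^ β * (Y : ℝ) ^ ((κ + 1) * β) := by
      rw [rpow_mul (by linarith), ← mul_rpow hl4 (by positivity)]
      exact rpow_le_rpow hh0 g1 hβ0.le
    have g3 : ρ * (s * (κ * log Y) - 2 * log 2) ≤ ρ * (m * log 2) := by
      gcongr
    have g4 : log ((∏ p ∈ TT Y, p : ℕ) : ℝ) ≤ (s + 1) * log Y := hθ.trans hθ1
    have g5 : ρ * (s * (κ * log Y) - 2 * log 2) =
        (δ + 1) * (s * log Y) - ρ * (2 * log 2) := by
      rw [hδ]
      ring
    have g7 : δ * (Y * log 2 - 2 * log Y - log 2) ≤ δ * (s * log Y) := by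
      gcongr
    have g8 : (2 * δ + 1) * log Y + M0 ^ β * (Y : ℝ) ^ ((κ + 1) * β) +
      (δ * log 2 + ρ * (2 * log 2) + C) ≤ δ * log 2 * Y := hY1
    nlinarith

end Pool.Agent.Helper892.SW
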