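import Mathlib

/-!
Many numbers with prescribed prime factors which are congruent modulo a large power of a prime.
-/

set_option autoImplicit false

namespace Pool.Agent.Helper892.SW

theorem pigW (p0 : ℕ) (hp0 : p0.Prime) (T : Finset ℕ) (hT : ∀ p ∈ T, p.Prime) (A m D : ℕ)
    (h : p0 ^ m * D < (A + 1) ^ T.card) : ∃ W : Finset ℕ, D < W.card ∧
      (∀ w ∈ W, 0 < w ∧ w ∣ (∏ p ∈ T, p) ^ A) ∧
      ∀ w ∈ W, ∀ w' ∈ W, ((p0 ^ m : ℕ) : ℤ) ∣ (w : ℤ) - w' := by
  classical
  have : NeZero (p0 ^ m) := ⟨pow_ne_zero _ hp0.ne_zero⟩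
  set g : (T → Fin (A + 1)) → ℕ := fun e => ∏ q : T, (q : ℕ) ^ (e q : ℕ) with hg
  have hcard : Fintype.card (ZMod (p0 ^ m)) * D < Fintype.card (T → Fin (A + 1)) := by
    rw [ZMod.card, Fintype.card_fun, Fintype.card_fin, Fintype.card_coe]
    exact h
  obtain ⟨y, hy⟩ := Fintype.exists_lt_card_fiber_of_mul_lt_card
    (fun e => ((g e : ℕ) : ZMod (p0 ^ m))) hcard
  have hfac : ∀ (e : T → Fin (A + 1)) (q : T), (g e).factorization q = (e q : ℕ) := by
    intro e q
    rw [hg]
    simp only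
    rw [Nat.factorization_prod (fun (x : T) _ => pow_ne_zero _ (hT x x.2).ne_zero)]
    rw [Finsupp.finsetSum_apply]
    rw [Finset.sum_eq_single q]
    · rw [(hT q q.2).factorization_pow, Finsupp.single_eq_same]
    · intro r _ hr
      rw [(hT r r.2).factorization_pow, Finsupp.single_apply, if_neg]
      intro h1
      exact hr (Subtype.ext h1)
    · intro h1
      exact absurd (Finset.mem_univ q) h1
  have hginj : Function.Injective g := by
    intro e e' h1
    funext q
    apply Fin.ext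
    rw [← hfac e q, ← hfac e' q, h1]
  have hgpos : ∀ e, 0 < g e := fun e => Finset.prod_pos fun q _ => pow_pos (hT q q.2).pos _
  have hgle : ∀ e, g e ∣ (∏ p ∈ T, p) ^ A := by
    intro e
    rw [← Finset.prod_pow, ← Finset.prod_coe_sort T (fun p => p ^ A)]
    refine Finset.prod_dvd_prod_of_dvd _ _ fun q _ => ?_
    exact pow_dvd_pow _ (Nat.lt_succ_iff.1 (e q).2)
  refine ⟨(Finset.univ.filter fun e => ((g e : ℕ) : ZMod (p0 ^ m)) = y).image g, ?_, ?_, ?_⟩
  · rw [Finset.card_image_of_injective _ hginj]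
    exact hy
  · intro w hw
    obtain ⟨e, -, rfl⟩ := Finset.mem_image.1 hw
    exact ⟨hgpos e, hgle e⟩
  · intro w hw w' hw'
    obtain ⟨e, he, rfl⟩ := Finset.mem_image.1 hw
    obtain ⟨e', he', rfl⟩ := Finset.mem_image.1 hw'
    have h1 := (Finset.mem_filter.1 he).2
    have h2 := (Finset.mem_filter.1 he').2
    have h3 : (((g e : ℤ) - (g e' : ℤ) : ℤ) : ZMod (p0 ^ m)) = 0 := by
      push_cast
      rw [h1, h2, sub_self]
    exact (ZMod.intCast_zmod_eq_zero_iff_dvd _ _).1 h3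

end Pool.Agent.Helper892.SW
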