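import Pool.Agent.Helper892.SW.Val

/-!
The primes with positive local height, and the height of a tuple of natural numbers.
-/

set_option autoImplicit false

open NumberField Module IsDedekindDomain

namespace Pool.Agent.Helper892.SW

open Pool.Agent.Helper892.ER Pool.Agent.Helper892.SE Pool.Agent.Helper892.ST

variable {k : Type} [Field k] [NumberField k] {n : ℕ}

theorem count_le {d μ : ℕ} (F : MvPolynomial (Fin (n + 1)) (𝓞 k)) (hFd : F.IsHomogeneous d)
    (hF : F ∈ idZ k n ^ μ) : ∃ C : ℝ, 0 ≤ C ∧ ∀ (x : Fin (n + 1) → ℕ) (R p0 m M : ℕ), 0 < R →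
      0 < p0 → 0 < M → (∀ i, ((p0 ^ m : ℕ) : ℤ) ∣ (x i : ℤ) - x 0) → (∀ i, x i ≤ M) →
      ev F x ≠ 0 → ∀ V : Set (HeightOneSpectrum (𝓞 k)),
      (∀ q ∈ V, ((R : ℕ) : 𝓞 k) ∈ q.asIdeal ∨ ((p0 : ℕ) : 𝓞 k) ∈ q.asIdeal ∨
        ev F x ∈ q.asIdeal) →
      ∑ᶠ q ∈ V, Real.log (Ideal.absNorm q.asIdeal : ℕ) ≤
        finrank ℚ k * (Real.log R + Real.log p0 + d * Real.log M - μ * (m * Real.log p0)) + C := by
  classical
  obtain ⟨C0, hC0, hC0'⟩ := norm_le F hFd
  refine ⟨Real.log C0, Real.log_nonneg hC0, fun x R p0 m M hR hp0 hM hx hxM hy V hV => ?_⟩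
  obtain ⟨z, hz⟩ := ev_dvd hF x (p0 ^ m) hx
  have hz0 : z ≠ 0 := by
    rintro rfl
    rw [mul_zero] at hz
    exact hy hz
  have hV' : V ⊆ {q | ((R : ℕ) : 𝓞 k) ∈ q.asIdeal} ∪ {q | ((p0 : ℕ) : 𝓞 k) ∈ q.asIdeal} ∪
      {q | z ∈ q.asIdeal} := by
    intro q hq
    rcases hV q hq with h | h | h
    · exact Or.inl (Or.inl h)
    · exact Or.inl (Or.inr h)
    · rw [hz] at h
      rcases q.isPrime.mem_or_mem h with h1 | h1
      · refine Or.inl (Or.inr ?_)
        push_cast at h1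
        exact q.isPrime.mem_of_pow_mem _ (q.isPrime.mem_of_pow_mem _ h1)
      · exact Or.inr h1
  have hfz : {q : HeightOneSpectrum (𝓞 k) | z ∈ q.asIdeal}.Finite := by
    have h0 : Ideal.span {z} ≠ 0 := by
      intro h
      rw [Ideal.zero_eq_bot, Ideal.span_singleton_eq_bot] at h
      exact hz0 h
    refine (Ideal.finite_factors h0).subset ?_
    intro w hw
    show w.asIdeal ∣ Ideal.span {z}
    rw [Ideal.dvd_span_singleton]
    exact hw
  have hf : V.Finite := (((finite_mem k hR).union (finite_mem k hp0)).union hfz).subset hV'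
  rw [finsum_mem_eq_finite_toFinset_sum _ hf]
  have hnn : ∀ q : HeightOneSpectrum (𝓞 k), 0 ≤ Real.log (Ideal.absNorm q.asIdeal : ℕ) := fun q =>
    Real.log_natCast_nonneg _
  have hsub : hf.toFinset ⊆ (hf.toFinset.filter fun q => ((R : ℕ) : 𝓞 k) ∈ q.asIdeal) ∪
      (hf.toFinset.filter fun q => ((p0 : ℕ) : 𝓞 k) ∈ q.asIdeal) ∪
      (hf.toFinset.filter fun q => z ∈ q.asIdeal) := by
    intro q hq
    have h1 := hV' (hf.mem_toFinset.1 hq)
    simp only [Finset.mem_union, Finset.mem_filter]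
    rcases h1 with (h1 | h1) | h1
    · exact Or.inl (Or.inl ⟨hq, h1⟩)
    · exact Or.inl (Or.inr ⟨hq, h1⟩)
    · exact Or.inr ⟨hq, h1⟩
  have h1 : ∑ q ∈ hf.toFinset, Real.log (Ideal.absNorm q.asIdeal : ℕ) ≤
      ∑ q ∈ (hf.toFinset.filter fun q => ((R : ℕ) : 𝓞 k) ∈ q.asIdeal),
        Real.log (Ideal.absNorm q.asIdeal : ℕ) +
      ∑ q ∈ (hf.toFinset.filter fun q => ((p0 : ℕ) : 𝓞 k) ∈ q.asIdeal),
        Real.log (Ideal.absNorm q.asIdeal : ℕ) +
      ∑ q ∈ (hf.toFinset.filter fun q => z ∈ q.asIdeal),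
        Real.log (Ideal.absNorm q.asIdeal : ℕ) := by
    refine (Finset.sum_le_sum_of_subset_of_nonneg hsub fun q _ _ => hnn q).trans ?_
    have h2 : ∀ (s t : Finset (HeightOneSpectrum (𝓞 k))),
        ∑ q ∈ s ∪ t, Real.log (Ideal.absNorm q.asIdeal : ℕ) ≤
        ∑ q ∈ s, Real.log (Ideal.absNorm q.asIdeal : ℕ) +
          ∑ q ∈ t, Real.log (Ideal.absNorm q.asIdeal : ℕ) := by
      intro s t
      have h3 := Finset.sum_union_inter (s₁ := s) (s₂ := t)
        (f := fun q : HeightOneSpectrum (𝓞 k) => Real.log (Ideal.absNorm q.asIdeal : ℕ))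
      have h4 : 0 ≤ ∑ q ∈ s ∩ t, Real.log (Ideal.absNorm q.asIdeal : ℕ) :=
        Finset.sum_nonneg fun q _ => hnn q
      linarith
    exact (h2 _ _).trans (add_le_add_left (h2 _ _) _)
  have g1 := sum_primes_le k hR (hf.toFinset.filter fun q => ((R : ℕ) : 𝓞 k) ∈ q.asIdeal)
    (fun q hq => (Finset.mem_filter.1 hq).2)
  have g2 := sum_primes_le k hp0 (hf.toFinset.filter fun q => ((p0 : ℕ) : 𝓞 k) ∈ q.asIdeal)
    (fun q hq => (Finset.mem_filter.1 hq).2)
  have g3 := sum_le_norm z hz0 (hf.toFinset.filter fun q => z ∈ q.asIdeal)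
    (fun q hq => (Finset.mem_filter.1 hq).2)
  -- the norm of `z`
  have hNz : 0 < Ideal.absNorm (Ideal.span {z}) := by
    rw [Nat.pos_iff_ne_zero, Ne, Ideal.absNorm_eq_zero_iff, Ideal.span_singleton_eq_bot]
    exact hz0
  have h5 : Ideal.absNorm (Ideal.span {ev F x}) =
      ((p0 ^ m) ^ μ) ^ finrank ℚ k * Ideal.absNorm (Ideal.span {z}) := by
    rw [hz, ← Ideal.span_singleton_mul_span_singleton, map_mul, norm_span_nat]
  have h6 := hC0' x M hxM
  rw [h5] at h6
  push_cast at h6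
  have hp0r : (0 : ℝ) < p0 := by exact_mod_cast hp0
  have hMr : (0 : ℝ) < M := by exact_mod_cast hM
  have hNzr : (0 : ℝ) < (Ideal.absNorm (Ideal.span {z}) : ℕ) := by exact_mod_cast hNz
  have h7 := Real.log_le_log (by positivity) h6
  rw [Real.log_mul (by positivity) hNzr.ne', Real.log_mul (by positivity) (by positivity),
    Real.log_pow, Real.log_pow, Real.log_pow, Real.log_pow, Real.log_pow] at h7
  nlinarith

lemma ht_nat (x : Fin (n + 1) → ℕ) (hx : ∀ i, 0 < x i) (hg : Finset.univ.gcd x = 1) (M : ℕ)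
    (hM : ∀ i, x i ≤ M) (hM' : ∃ i, x i = M) :
    Height.logHeight (fun i => ((x i : ℕ) : k)) = finrank ℚ k * Real.log M := by
  classical
  have hx0 : (fun i => ((x i : ℕ) : k)) ≠ 0 := by
    intro h
    have := congrFun h 0
    simp only [Pi.zero_apply, Nat.cast_eq_zero] at this
    exact (hx 0).ne' this
  have hinf : ∀ v : InfinitePlace k, (⨆ i, v ((x i : ℕ) : k)) = (M : ℝ) := by
    intro v
    have e0 : ∀ i, v ((x i : ℕ) : k) = (x i : ℝ) := fun i =>
      Pool.Agent.Helper892.VE.v_nat v (x i)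
    apply le_antisymm
    · refine ciSup_le fun i => ?_
      rw [e0]
      exact_mod_cast hM i
    · obtain ⟨i, hi⟩ := hM'
      have h1 := le_ciSup (f := fun i => v ((x i : ℕ) : k)) (Set.finite_range _).bddAbove i
      rw [e0 i, hi] at h1
      exact h1
  have hfin : ∀ q : HeightOneSpectrum (𝓞 k),
      (⨆ i, (FinitePlace.mk q) ((x i : ℕ) : k)) = 1 := by
    intro q
    have e0 : ∀ i, (FinitePlace.mk q) ((x i : ℕ) : k) = av q ((x i : ℕ) : k) := fun i =>
      Pool.Agent.Helper892.SE.mk_eq_av q _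
    have hle : ∀ i, av q ((x i : ℕ) : k) ≤ 1 := by
      intro i
      rw [← coe_nat]
      exact av_int q _
    have hex : ∃ i, av q ((x i : ℕ) : k) = 1 := by
      by_contra hcon
      push Not at hcon
      have hmem : ∀ i, ((x i : ℕ) : 𝓞 k) ∈ q.asIdeal := by
        intro i
        have h1 := lt_of_le_of_ne (hle i) (hcon i)
        rw [← coe_nat] at h1
        exact (av_lt_one_iff q _).1 h1
      have hJ : (q.asIdeal.comap (Int.castRingHom (𝓞 k))).IsPrincipal :=
        IsPrincipalIdealRing.principal _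
      obtain ⟨c, hc⟩ := hJ
      have hc1 : ∀ i, c.natAbs ∣ x i := by
        intro i
        have h1 : ((x i : ℕ) : ℤ) ∈ q.asIdeal.comap (Int.castRingHom (𝓞 k)) := by
          rw [Ideal.mem_comap]
          simpa using hmem i
        rw [hc] at h1
        have h2 : c ∣ ((x i : ℕ) : ℤ) := Ideal.mem_span_singleton.1 h1
        exact Int.natAbs_dvd_natAbs.2 h2
      have hc2 : c.natAbs ∣ 1 := by
        rw [← hg]
        exact Finset.dvd_gcd fun i _ => hc1 i
      have hc3 : IsUnit c := Int.isUnit_iff_natAbs_eq.2 (Nat.dvd_one.1 hc2)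
      have h3 : (1 : ℤ) ∈ q.asIdeal.comap (Int.castRingHom (𝓞 k)) := by
        rw [hc]
        exact Ideal.mem_span_singleton.2 hc3.dvd
      rw [Ideal.mem_comap, map_one] at h3
      exact q.isPrime.ne_top ((Ideal.eq_top_iff_one _).2 h3)
    apply le_antisymm
    · refine ciSup_le fun i => ?_
      rw [e0]
      exact hle i
    · obtain ⟨i, hi⟩ := hex
      have h1 := le_ciSup (f := fun i => (FinitePlace.mk q) ((x i : ℕ) : k))
        (Set.finite_range _).bddAbove i
      rw [e0 i, hi] at h1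
      exact h1
  rw [Height.logHeight_eq_log_mulHeight, NumberField.mulHeight_eq hx0,
    finprod_finitePlace ∅ (fun v => ⨆ i, v ((x i : ℕ) : k)) (fun q _ => hfin q),
    Finset.prod_empty, mul_one, ← InfinitePlace.sum_mult_eq, Nat.cast_sum, Finset.sum_mul,
    Real.log_prod]
  · refine Finset.sum_congr rfl fun v _ => ?_
    rw [hinf v, Real.log_pow]
  · intro v _
    rw [hinf v]
    obtain ⟨i, hi⟩ := hM'
    have : 0 < M := hi ▸ hx i
    positivity

end Pool.Agent.Helper892.SW
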