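import Pool.Agent.Helper892.SW.Cnt
import Pool.Agent.Helper892.SW.Pig
import Pool.Agent.Helper892.SW.Param

/-!
The error term of the truncated inequality on projective space.
-/

set_option autoImplicit false

open NumberField Module IsDedekindDomain

namespace Pool.Agent.Helper892.SW

open Pool.Agent.Helper892.ER Pool.Agent.Helper892.SE Pool.Agent.Helper892.ST

variable {k : Type} [Field k] [NumberField k] {n : ℕ}

theorem main {d e μ : ℕ} (hμ : 1 ≤ μ) (F : MvPolynomial (Fin (n + 1)) (𝓞 k)) (hF0 : F ≠ 0)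
    (hFd : F.IsHomogeneous d) (hF : F ∈ idZ k n ^ μ) (G : MvPolynomial (Fin (n + 1)) k)
    (hG0 : G ≠ 0) (hGe : G.IsHomogeneous e) (β : ℝ) (hβ0 : 0 < β) (hβ : β < μ / (μ + 1)) (T0 : ℝ) :
    ∃ (x : Fin (n + 1) → ℕ) (R A : ℕ), 0 < R ∧ (∀ i, 0 < x i) ∧ (∀ i, x i ∣ R ^ A) ∧
      ev F x ≠ 0 ∧ MvPolynomial.eval (fun i => ((x i : ℕ) : k)) G ≠ 0 ∧
      T0 < Height.logHeight (fun i => ((x i : ℕ) : k)) ∧
      ∀ V : Set (HeightOneSpectrum (𝓞 k)),
      (∀ q ∈ V, ((R : ℕ) : 𝓞 k) ∈ q.asIdeal ∨ ((2 : ℕ) : 𝓞 k) ∈ q.asIdeal ∨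
        ev F x ∈ q.asIdeal) →
      ∑ᶠ q ∈ V, Real.log (Ideal.absNorm q.asIdeal : ℕ) +
        (Height.logHeight (fun i => ((x i : ℕ) : k))) ^ β ≤
        d * Height.logHeight (fun i => ((x i : ℕ) : k)) := by
  classical
  have hμr : (1 : ℝ) ≤ μ := by exact_mod_cast hμ
  have hβ' : β < (μ : ℝ) / (1 + μ) := by rwa [add_comm]
  have hβ1 : β < 1 := by
    refine hβ.trans_le ?_
    rw [div_le_one (by linarith)]
    linarith
  obtain ⟨C, hC0, hC⟩ := count_le F hFd hF
  set F' := F.map (algebraMap (𝓞 k) k) with hF'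
  have hF'0 : F' ≠ 0 := by
    intro h
    apply hF0
    have hinj : Function.Injective (algebraMap (𝓞 k) k) := RingOfIntegers.coe_injective
    exact (MvPolynomial.map_injective _ hinj) (by rw [← hF', h, map_zero])
  set D : ℕ := (F' * G).totalDegree with hD
  set t : ℕ := D + 1 with ht
  have hDt : D ≤ 2 ^ t := by
    have : D < 2 ^ D := Nat.lt_two_pow_self
    have h2 : 2 ^ D ≤ 2 ^ t := Nat.pow_le_pow_right (by norm_num) (by omega)
    omega
  have hl2 : 0 < Real.log 2 := Real.log_pos (by norm_num)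
  set E : ℝ := (d + 1) * (|T0| + 1) with hE
  have hE1 : 1 ≤ E := by
    have h1 : (1 : ℝ) ≤ d + 1 := by
      have : (0 : ℝ) ≤ d := Nat.cast_nonneg _
      linarith
    have h2 : (1 : ℝ) ≤ |T0| + 1 := by
      have := abs_nonneg T0
      linarith
    rw [hE]
    nlinarith
  obtain ⟨Y, A, m1, hpig, hT0, hpar⟩ := params μ β (by linarith) hβ0 hβ'
    (Real.log 2 + C + μ * (t * Real.log 2) + E) (t * Real.log 2)
  have hm1t : t ≤ m1 := by
    have h1 : (t : ℝ) ≤ m1 := le_of_mul_le_mul_right hT0 hl2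
    exact_mod_cast h1
  set m : ℕ := m1 - t with hm
  have hm1 : m1 = m + t := by omega
  set R : ℕ := ∏ p ∈ TT Y, p with hR
  have hR0 : 0 < R := Finset.prod_pos fun p hp => (mem_TT hp).1.pos
  obtain ⟨W, hWc, hWd, hWm⟩ := pigW 2 Nat.prime_two (TT Y) (fun p hp => (mem_TT hp).1) A m D (by
    refine lt_of_le_of_lt ?_ hpig
    rw [hm1, pow_add]
    exact Nat.mul_le_mul_left _ hDt)
  -- the point
  have hcastinj : Function.Injective (fun w : ℕ => (w : k)) := Nat.cast_injective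
  have hex : ∃ x : Fin (n + 1) → k, (∀ i, x i ∈ W.image (fun w : ℕ => (w : k))) ∧
      MvPolynomial.eval x (F' * G) ≠ 0 := by
    by_contra hcon
    push Not at hcon
    refine mul_ne_zero hF'0 hG0 (MvPolynomial.eq_zero_of_eval_zero_at_prod_finset (F' * G)
      (fun _ => W.image (fun w : ℕ => (w : k))) (fun i => ?_) hcon)
    rw [Finset.card_image_of_injective _ hcastinj]
    exact (MvPolynomial.degreeOf_le_totalDegree _ _).trans_lt hWc
  obtain ⟨x0, hx0W, hx0FG⟩ := hex
  have hch : ∀ i, ∃ w ∈ W, (w : k) = x0 i := fun i => by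
    obtain ⟨w, hw, h⟩ := Finset.mem_image.1 (hx0W i)
    exact ⟨w, hw, h⟩
  choose y hyW hyx using hch
  have hx0y : x0 = fun i => ((y i : ℕ) : k) := funext fun i => (hyx i).symm
  rw [hx0y, map_mul] at hx0FG
  have hyF : MvPolynomial.eval (fun i => ((y i : ℕ) : k)) F' ≠ 0 := left_ne_zero_of_mul hx0FG
  have hyG : MvPolynomial.eval (fun i => ((y i : ℕ) : k)) G ≠ 0 := right_ne_zero_of_mul hx0FG
  -- the greatest common divisor
  obtain ⟨x, hx, hgcd⟩ := Finset.extract_gcd y (Finset.univ_nonempty (α := Fin (n + 1)))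
  set g : ℕ := Finset.univ.gcd y with hg
  have hx' : ∀ i, y i = g * x i := fun i => hx i (Finset.mem_univ i)
  have hy0 : ∀ i, 0 < y i := fun i => (hWd _ (hyW i)).1
  have hyR : ∀ i, y i ∣ R ^ A := fun i => (hWd _ (hyW i)).2
  have hg0 : 0 < g := by
    rcases Nat.eq_zero_or_pos g with h | h
    · have := hx' 0
      rw [h, zero_mul] at this
      exact absurd this (hy0 0).ne'
    · exact h
  have hxpos : ∀ i, 0 < x i := by
    intro i
    rcases Nat.eq_zero_or_pos (x i) with h | h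
    · have := hx' i
      rw [h, mul_zero] at this
      exact absurd this (hy0 i).ne'
    · exact h
  have hxR : ∀ i, x i ∣ R ^ A := fun i => (Dvd.intro_left g (hx' i).symm).trans (hyR i)
  have hgR : g ∣ R ^ A := (Dvd.intro (x 0) (hx' 0).symm).trans (hyR 0)
  have hRodd : Nat.Coprime 2 R := by
    refine Nat.Coprime.prod_right fun p hp => ?_
    exact (Nat.coprime_primes Nat.prime_two (mem_TT hp).1).2 (mem_TT hp).2.symm
  have hgodd : Nat.Coprime 2 g := Nat.Coprime.coprime_dvd_right hgR (hRodd.pow_right A)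
  have hxm : ∀ i, ((2 ^ m : ℕ) : ℤ) ∣ (x i : ℤ) - x 0 := by
    intro i
    have h1 := hWm _ (hyW i) _ (hyW 0)
    rw [hx' i, hx' 0] at h1
    push_cast at h1
    rw [← mul_sub] at h1
    have h2 : IsCoprime ((2 ^ m : ℕ) : ℤ) (g : ℤ) := by
      rw [Nat.isCoprime_iff_coprime]
      exact Nat.Coprime.pow_left m hgodd
    push_cast at h2 ⊢
    exact h2.dvd_of_dvd_mul_left h1
  have hgk : (g : k) ≠ 0 := by exact_mod_cast hg0.ne'
  have hyfun : (fun i => ((y i : ℕ) : k)) = fun i => (g : k) * ((x i : ℕ) : k) := by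
    funext i
    rw [hx' i]
    push_cast
    rfl
  have hxF : ev F x ≠ 0 := by
    intro h
    apply hyF
    rw [hyfun, eval_scale (hFd.map (algebraMap (𝓞 k) k)), ← ev_coe, h]
    simp
  have hxG : MvPolynomial.eval (fun i => ((x i : ℕ) : k)) G ≠ 0 := by
    intro h
    apply hyG
    rw [hyfun, eval_scale hGe, h, mul_zero]
  -- the height
  obtain ⟨i0, -, hi0⟩ := Finset.exists_max_image (Finset.univ : Finset (Fin (n + 1))) x
    Finset.univ_nonempty
  set M : ℕ := x i0 with hM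
  have hMpos : 0 < M := hxpos i0
  have hMle : ∀ i, x i ≤ M := fun i => hi0 i (Finset.mem_univ i)
  have hht := ht_nat (k := k) x hxpos hgcd M hMle ⟨i0, rfl⟩
  set N : ℝ := (finrank ℚ k : ℝ) with hN
  have hN1 : 1 ≤ N := by
    have : 0 < finrank ℚ k := finrank_pos
    rw [hN]
    exact_mod_cast this
  have hlM : 0 ≤ Real.log M := Real.log_natCast_nonneg M
  have hlMA : Real.log M ≤ A * Real.log (R : ℝ) := by
    rw [← Real.log_pow]
    apply Real.log_le_log (by exact_mod_cast hMpos)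
    exact_mod_cast Nat.le_of_dvd (pow_pos hR0 _) (hxR i0)
  have hp := hpar (Real.log M) hlM hlMA
  have hm1r : (m1 : ℝ) = m + t := by
    rw [hm1]
    push_cast
    ring
  have hbound : ∀ V : Set (HeightOneSpectrum (𝓞 k)),
      (∀ q ∈ V, ((R : ℕ) : 𝓞 k) ∈ q.asIdeal ∨ ((2 : ℕ) : 𝓞 k) ∈ q.asIdeal ∨
        ev F x ∈ q.asIdeal) →
      ∑ᶠ q ∈ V, Real.log (Ideal.absNorm q.asIdeal : ℕ) + N * (Real.log M) ^ β + N * E ≤
        d * (N * Real.log M) := by
    intro V hV
    have h1 := hC x R 2 m M hR0 (by norm_num) hMpos hxm hMle hxF V hV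
    rw [hm1r] at hp
    have h2 : Real.log (R : ℝ) + Real.log ((2 : ℕ) : ℝ) + (Real.log M) ^ β + C + E ≤
        μ * (m * Real.log 2) := by
      push_cast
      linarith
    have h3 := mul_le_mul_of_nonneg_left h2 (zero_le_one.trans hN1)
    have h4 : C ≤ N * C := by nlinarith
    push_cast at h1 h3
    nlinarith
  have hrp : (N * Real.log M) ^ β ≤ N * (Real.log M) ^ β := by
    rw [Real.mul_rpow (by linarith) hlM]
    refine mul_le_mul_of_nonneg_right ?_ (Real.rpow_nonneg hlM _)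
    calc N ^ β ≤ N ^ (1 : ℝ) := Real.rpow_le_rpow_of_exponent_le hN1 hβ1.le
      _ = N := Real.rpow_one N
  refine ⟨x, R, A, hR0, hxpos, hxR, hxF, hxG, ?_, fun V hV => ?_⟩
  · rw [hht]
    have h1 := hbound ∅ (fun q hq => absurd hq (Set.notMem_empty q))
    rw [finsum_mem_empty, zero_add] at h1
    have h2 : 0 ≤ N * (Real.log M) ^ β := mul_nonneg (by linarith) (Real.rpow_nonneg hlM _)
    have h3 : E ≤ N * E := by nlinarith
    have h4 : E ≤ d * (N * Real.log M) := by linarith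
    have h5 : 0 ≤ N * Real.log M := mul_nonneg (by linarith) hlM
    have h6 : (d : ℝ) * (N * Real.log M) ≤ (d + 1) * (N * Real.log M) := by nlinarith
    have h7 : (d + 1 : ℝ) * (|T0| + 1) ≤ (d + 1) * (N * Real.log M) := by
      rw [← hE]
      linarith
    have h8 : |T0| + 1 ≤ N * Real.log M := by
      refine le_of_mul_le_mul_left h7 ?_
      have : (0 : ℝ) ≤ d := Nat.cast_nonneg _
      linarith
    have := le_abs_self T0
    linarith
  · rw [hht]
    have h1 := hbound V hV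
    have h2 : 0 ≤ N * E := mul_nonneg (by linarith) (by linarith)
    linarith

end Pool.Agent.Helper892.SW
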