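import Pool.Agent.Helper892.SE.Main
import Pool.Agent.Helper892.ST.Prm
import Pool.Agent.Helper892.ST.Arith

/-!
Values of a form with integral coefficients at tuples of natural numbers.
-/

set_option autoImplicit false

open NumberField Module IsDedekindDomain

namespace Pool.Agent.Helper892.SW

open Pool.Agent.Helper892.ER Pool.Agent.Helper892.SE Pool.Agent.Helper892.ST

variable {k : Type} [Field k] [NumberField k] {n : ℕ}

/-- the value at a tuple of natural numbers -/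
noncomputable def ev (F : MvPolynomial (Fin (n + 1)) (𝓞 k)) (x : Fin (n + 1) → ℕ) : 𝓞 k :=
  MvPolynomial.eval (fun i => ((x i : ℕ) : 𝓞 k)) F

/-- the ideal of the point `(1 : … : 1)` -/
noncomputable def idZ (k : Type) [Field k] (n : ℕ) : Ideal (MvPolynomial (Fin (n + 1)) (𝓞 k)) :=
  Ideal.span (Set.range fun i : Fin (n + 1) => MvPolynomial.X i - MvPolynomial.X 0)

lemma ev_dvd {μ : ℕ} {F : MvPolynomial (Fin (n + 1)) (𝓞 k)} (hF : F ∈ idZ k n ^ μ)
    (x : Fin (n + 1) → ℕ) (P : ℕ) (hx : ∀ i, (P : ℤ) ∣ (x i : ℤ) - x 0) :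
    ∃ z : 𝓞 k, ev F x = ((P ^ μ : ℕ) : 𝓞 k) * z := by
  let e := MvPolynomial.eval (fun i => ((x i : ℕ) : 𝓞 k))
  have h1 : (idZ k n).map e ≤ Ideal.span {((P : ℕ) : 𝓞 k)} := by
    unfold idZ
    rw [Ideal.map_span, Ideal.span_le]
    rintro _ ⟨_, ⟨i, rfl⟩, rfl⟩
    rw [SetLike.mem_coe, Ideal.mem_span_singleton]
    obtain ⟨c, hc⟩ := hx i
    refine ⟨(c : 𝓞 k), ?_⟩
    have := congrArg (fun z : ℤ => (z : 𝓞 k)) hc
    push_cast at this
    simp [e, this]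
  have h2 : e F ∈ Ideal.span {((P : ℕ) : 𝓞 k)} ^ μ := Ideal.pow_right_mono h1 μ (by
    rw [← Ideal.map_pow]
    exact Ideal.mem_map_of_mem e hF)
  rw [Ideal.span_singleton_pow, Ideal.mem_span_singleton] at h2
  obtain ⟨z, hz⟩ := h2
  refine ⟨z, ?_⟩
  push_cast
  exact hz

lemma ev_coe (F : MvPolynomial (Fin (n + 1)) (𝓞 k)) (x : Fin (n + 1) → ℕ) :
    ((ev F x : 𝓞 k) : k) =
      MvPolynomial.eval (fun i => ((x i : ℕ) : k)) (F.map (algebraMap (𝓞 k) k)) := by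
  unfold ev
  rw [MvPolynomial.eval_map]
  change algebraMap (𝓞 k) k _ = _
  rw [← MvPolynomial.eval₂_id, MvPolynomial.hom_eval₂]
  simp only [RingHom.comp_id]
  congr 1

lemma ev_scale {d : ℕ} {F : MvPolynomial (Fin (n + 1)) (𝓞 k)} (hF : F.IsHomogeneous d) (g : ℕ)
    (x : Fin (n + 1) → ℕ) : ((ev F (fun i => g * x i) : 𝓞 k) : k) =
      (g : k) ^ d * ((ev F x : 𝓞 k) : k) := by
  rw [ev_coe, ev_coe, ← eval_scale (hF.map (algebraMap (𝓞 k) k))]
  congr 2
  funext i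
  push_cast
  ring

lemma norm_eq (y : 𝓞 k) : ((Ideal.absNorm (Ideal.span {y}) : ℕ) : ℝ) =
    ∏ w : InfinitePlace k, w (y : k) ^ w.mult := by
  rw [InfinitePlace.prod_eq_abs_norm, Ideal.absNorm_span_singleton]
  have h1 : ((Algebra.norm ℤ y : ℤ) : ℚ) = Algebra.norm ℚ (y : k) := Algebra.coe_norm_int y
  rw [← h1]
  push_cast
  rw [Nat.cast_natAbs]
  push_cast
  rfl

lemma norm_le {d : ℕ} (F : MvPolynomial (Fin (n + 1)) (𝓞 k)) (hF : F.IsHomogeneous d) :
    ∃ C : ℝ, 1 ≤ C ∧ ∀ (x : Fin (n + 1) → ℕ) (M : ℕ), (∀ i, x i ≤ M) →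
      ((Ideal.absNorm (Ideal.span {ev F x}) : ℕ) : ℝ) ≤ C * ((M : ℝ) ^ d) ^ finrank ℚ k := by
  classical
  choose c hc0 hc using fun v : AbsoluteValue k ℝ =>
    form_le v (F.map (algebraMap (𝓞 k) k)) (hF.map (algebraMap (𝓞 k) k))
  have hc1 : ∀ v : InfinitePlace k, (1 : ℝ) ≤ max (c v.1) 1 := fun v => le_max_right _ _
  refine ⟨∏ v : InfinitePlace k, (max (c v.1) 1) ^ v.mult, ?_, fun x M hM => ?_⟩
  · have h1 : ∏ v : InfinitePlace k, (1 : ℝ) ≤ ∏ v : InfinitePlace k, (max (c v.1) 1) ^ v.mult :=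
      Finset.prod_le_prod (fun _ _ => zero_le_one) fun v _ => one_le_pow₀ (hc1 v)
    simpa using h1
  · rw [norm_eq, ← InfinitePlace.sum_mult_eq, ← Finset.prod_pow_eq_pow_sum,
      ← Finset.prod_mul_distrib]
    refine Finset.prod_le_prod (fun v _ => pow_nonneg (apply_nonneg _ _) _) fun v _ => ?_
    rw [← mul_pow]
    refine pow_le_pow_left₀ (apply_nonneg _ _) ?_ _
    rw [ev_coe]
    have h1 : v (MvPolynomial.eval (fun i => ((x i : ℕ) : k)) (F.map (algebraMap (𝓞 k) k))) ≤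
        c v.1 * (⨆ i, v.1 ((x i : ℕ) : k)) ^ d := hc v.1 _
    have h2 : (⨆ i, v.1 ((x i : ℕ) : k)) ≤ M := by
      refine ciSup_le fun i => ?_
      have : v ((x i : ℕ) : k) = (x i : ℝ) := Pool.Agent.Helper892.VE.v_nat v (x i)
      have h3 : v.1 ((x i : ℕ) : k) = (x i : ℝ) := this
      rw [h3]
      exact_mod_cast hM i
    have h3 : 0 ≤ ⨆ i, v.1 ((x i : ℕ) : k) := Real.iSup_nonneg fun i => apply_nonneg _ _
    refine h1.trans ?_
    calc c v.1 * (⨆ i, v.1 ((x i : ℕ) : k)) ^ d ≤ max (c v.1) 1 * (M : ℝ) ^ d := by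
          refine mul_le_mul (le_max_left _ _) (pow_le_pow_left₀ h3 h2 d) (by positivity)
            (zero_le_one.trans (hc1 v))
      _ = _ := rfl

lemma sum_le_norm (z : 𝓞 k) (hz : z ≠ 0) (W : Finset (HeightOneSpectrum (𝓞 k)))
    (hW : ∀ w ∈ W, z ∈ w.asIdeal) :
    ∑ w ∈ W, Real.log (Ideal.absNorm w.asIdeal : ℕ) ≤
      Real.log (Ideal.absNorm (Ideal.span {z}) : ℕ) := by
  classical
  have h1 : ∏ w ∈ W, w.asIdeal ∣ Ideal.span {z} := by
    have h2 : ∏ w ∈ W, w.asIdeal = ∏ I ∈ W.image (fun w => w.asIdeal), I := by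
      rw [Finset.prod_image]
      intro w _ w' _ h
      exact HeightOneSpectrum.ext h
    rw [h2]
    refine Finset.prod_primes_dvd _ ?_ ?_
    · intro I hI
      obtain ⟨w, -, rfl⟩ := Finset.mem_image.1 hI
      exact w.prime
    · intro I hI
      obtain ⟨w, hw, rfl⟩ := Finset.mem_image.1 hI
      rw [Ideal.dvd_span_singleton]
      exact hW w hw
  have hpos : 0 < Ideal.absNorm (Ideal.span {z}) := by
    rw [Nat.pos_iff_ne_zero, Ne, Ideal.absNorm_eq_zero_iff, Ideal.span_singleton_eq_bot]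
    exact hz
  have h3 : ∏ w ∈ W, Ideal.absNorm w.asIdeal ∣ Ideal.absNorm (Ideal.span {z}) := by
    rw [← map_prod]
    exact map_dvd _ h1
  have h4 := Nat.le_of_dvd hpos h3
  have hpos' : ∀ w ∈ W, (0 : ℝ) < (Ideal.absNorm w.asIdeal : ℕ) := by
    intro w _
    have := HeightOneSpectrum.one_lt_absNorm w
    exact_mod_cast (by omega : 0 < Ideal.absNorm w.asIdeal)
  rw [← Real.log_prod (fun w hw => (hpos' w hw).ne')]
  refine Real.log_le_log (Finset.prod_pos hpos') ?_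
  exact_mod_cast h4

end Pool.Agent.Helper892.SW
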